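import Pool.Agent.QSB.StmtsE

set_option autoImplicit false

/-!
# QSB, row RYU: the roots of the unitary groups of maximal index
-/

namespace Pool.Agent.QSB.H77

open Matrix Finset Pool.Agent.QSX Pool.Agent.QSN Pool.Agent.QSB

/-- the normal form of a root: `i < j` and `i ≤ rev j` -/
theorem ryu_nf {p : ℕ} {i j : Fin (2 * p)} (h : i < j) : ∃ i₀ j₀ : Fin (2 * p), i₀ < j₀ ∧
    i₀ ≤ Fin.rev j₀ ∧ ∀ v : Fin (2 * p) → ℝ, (∀ x, v (Fin.rev x) = - v x) →
      v i - v j = v i₀ - v j₀ := by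
  rcases le_total i (Fin.rev j) with h1 | h1
  · exact ⟨i, j, h, h1, fun _ _ => rfl⟩
  · refine ⟨Fin.rev j, Fin.rev i, Fin.rev_lt_rev.2 h, ?_, fun v hv => ?_⟩
    · rw [Fin.rev_rev]; exact h1
    · rw [hv i, hv j]; ring

/-- the test vectors -/
def tv {p : ℕ} (l : Fin (2 * p)) (x : Fin (2 * p)) : ℝ :=
  (if x = l then 1 else 0) - (if x = Fin.rev l then 1 else 0)

theorem tv_rev {p : ℕ} (l x : Fin (2 * p)) : tv l (Fin.rev x) = - tv l x := by
  unfold tv
  have h1 : Fin.rev x = l ↔ x = Fin.rev l := by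
    constructor
    · rintro rfl; rw [Fin.rev_rev]
    · rintro rfl; rw [Fin.rev_rev]
  have h2 : Fin.rev x = Fin.rev l ↔ x = l := Fin.rev_inj
  rw [if_congr h1 rfl rfl, if_congr h2 rfl rfl]
  ring

theorem tv_self {p : ℕ} (l : Fin (2 * p)) : tv l l = 1 := by
  unfold tv
  have h : ¬ l = Fin.rev l := by
    intro h
    have := l.2
    rw [Fin.ext_iff, Fin.val_rev] at h
    omega
  rw [if_pos rfl, if_neg h, sub_zero]

theorem tv_zero {p : ℕ} (l x : Fin (2 * p)) (h1 : x ≠ l) (h2 : x ≠ Fin.rev l) : tv l x = 0 := by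
  unfold tv
  rw [if_neg h1, if_neg h2, sub_zero]

/-- below the first index the value is `0` -/
theorem val_lt {p : ℕ} {i j l : Fin (2 * p)} (h : i < j) (h' : i ≤ Fin.rev j) (hl : l < i) :
    tv l i - tv l j = 0 := by
  have hi := i.2
  have hj := j.2
  rw [Fin.le_def, Fin.val_rev] at h'
  rw [Fin.lt_def] at h hl
  rw [tv_zero l i, tv_zero l j, sub_zero]
  all_goals
    intro h0
    rw [Fin.ext_iff] at h0
    try rw [Fin.val_rev] at h0
    omega

/-- at the first index the value is `2` or `1` -/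
theorem val_eq {p : ℕ} {i j : Fin (2 * p)} (h : i < j) :
    (j = Fin.rev i ∧ tv i i - tv i j = 2) ∨ (j ≠ Fin.rev i ∧ tv i i - tv i j = 1) := by
  by_cases h1 : j = Fin.rev i
  · left
    refine ⟨h1, ?_⟩
    rw [h1, tv_rev, tv_self]; norm_num
  · right
    refine ⟨h1, ?_⟩
    rw [tv_zero i j h.ne' h1, tv_self, sub_zero]

theorem val_snd {p : ℕ} {i j : Fin (2 * p)} (h : i < j) (h1 : j ≠ Fin.rev i) :
    tv j i = 0 := by
  refine tv_zero j i h.ne fun h0 => h1 ?_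
  rw [h0, Fin.rev_rev]

/-- the combinatorial part in normal form -/
theorem ryu_main {p : ℕ} {i j i' j' : Fin (2 * p)} (h : i < j) (hr : i ≤ Fin.rev j)
    (h' : i' < j') (hr' : i' ≤ Fin.rev j') (c : ℝ)
    (H : ∀ v : Fin (2 * p) → ℝ, (∀ x, v (Fin.rev x) = - v x) →
      c * (v i - v j) = v i' - v j') : c = 1 := by
  have T : ∀ l, c * (tv l i - tv l j) = tv l i' - tv l j' := fun l => H (tv l) (tv_rev l)
  have hii : i = i' := by
    rcases lt_trichotomy i i' with h0 | h0 | h0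
    · exfalso
      have e1 := T i
      rw [val_lt h' hr' h0] at e1
      have hc : c = 0 := by
        rcases val_eq h with ⟨-, e⟩ | ⟨-, e⟩
        · rw [e] at e1; linarith
        · rw [e] at e1; linarith
      have e2 := T i'
      rw [hc, zero_mul] at e2
      rcases val_eq h' with ⟨-, e⟩ | ⟨-, e⟩
      · rw [e] at e2; norm_num at e2
      · rw [e] at e2; norm_num at e2
    · exact h0
    · exfalso
      have e2 := T i'
      rw [val_lt h hr h0, mul_zero] at e2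
      rcases val_eq h' with ⟨-, e⟩ | ⟨-, e⟩
      · rw [e] at e2; norm_num at e2
      · rw [e] at e2; norm_num at e2
  subst hii
  have e0 := T i
  rcases val_eq h with ⟨a1, a2⟩ | ⟨a1, a2⟩
  · rcases val_eq h' with ⟨b1, b2⟩ | ⟨b1, b2⟩
    · rw [a2, b2] at e0; linarith
    · exfalso
      have e1 := T j'
      rw [val_snd h' b1, tv_self, a1, tv_rev, val_snd h' b1] at e1
      norm_num at e1
  · rcases val_eq h' with ⟨b1, b2⟩ | ⟨b1, b2⟩
    · exfalso
      have e1 := T j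
      rw [val_snd h a1, tv_self, b1, tv_rev, val_snd h a1] at e1
      have hc : c = 0 := by linarith
      rw [hc, zero_mul, b2] at e0
      norm_num at e0
    · rw [a2, b2] at e0; linarith

theorem ryu_comb {p : ℕ} {i j i' j' : Fin (2 * p)} (h : i < j) (h' : i' < j') (c : ℝ)
    (H : ∀ v : Fin (2 * p) → ℝ, (∀ x, v (Fin.rev x) = - v x) →
      c * (v i - v j) = v i' - v j') : c = 1 := by
  obtain ⟨a, b, h1, h2, h3⟩ := ryu_nf h
  obtain ⟨a', b', h1', h2', h3'⟩ := ryu_nf h'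
  refine ryu_main h1 h2 h1' h2' c fun v hv => ?_
  rw [← h3 v hv, ← h3' v hv]
  exact H v hv

/-- a root is a difference of coordinates -/
theorem ryu_root {k p : ℕ} {𝔻 : Subalgebra ℝ (Matrix (Fin k) (Fin k) ℝ)} {ε : ℝ}
    {hε : ε * ε = 1} {ρ : (datU p 𝔻 ε hε).b →ₗ[ℝ] ℝ} (h : IsRt (datU p 𝔻 ε hε) ρ) :
    ∃ i j : Fin (2 * p), i < j ∧ ∀ (v : Fin (2 * p) → ℝ) (hv : ∀ x, v (Fin.rev x) = - v x),
      ρ ⟨cst k (2 * p) v, v, hv, rfl⟩ = v i - v j := by
  obtain ⟨z, ⟨hz, hw⟩, hz0⟩ := h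
  obtain ⟨x, hx, rfl⟩ := hz
  have h1 : ∃ P Q, blk k (2 * p) x P Q ≠ 0 := by
    by_contra hc
    push Not at hc
    exact hz0 (Matrix.ext hc)
  obtain ⟨P, Q, hPQ⟩ := h1
  obtain ⟨⟨i, a⟩, rfl⟩ := finProdFinEquiv.surjective P
  obtain ⟨⟨j, b⟩, rfl⟩ := finProdFinEquiv.surjective Q
  have hij : i < j := by
    by_contra hc
    rw [not_lt] at hc
    refine hPQ ?_
    rw [blk_apply, hx.1.2 i j hc, Matrix.zero_apply]
  refine ⟨i, j, hij, fun v hv => ?_⟩
  have h2 := congrFun (congrFun (hw ⟨cst k (2 * p) v, v, hv, rfl⟩) (finProdFinEquiv (i, a)))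
    (finProdFinEquiv (j, b))
  have h3 : cst k (2 * p) v (finProdFinEquiv (i, a)) *
      blk k (2 * p) x (finProdFinEquiv (i, a)) (finProdFinEquiv (j, b)) -
      blk k (2 * p) x (finProdFinEquiv (i, a)) (finProdFinEquiv (j, b)) *
      cst k (2 * p) v (finProdFinEquiv (j, b)) =
      ρ ⟨cst k (2 * p) v, v, hv, rfl⟩ *
        blk k (2 * p) x (finProdFinEquiv (i, a)) (finProdFinEquiv (j, b)) := by
    rw [← Matrix.diagonal_mul, ← Matrix.mul_diagonal, ← Matrix.sub_apply]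
    exact h2
  rw [cst_apply, cst_apply] at h3
  refine mul_right_cancel₀ hPQ ?_
  linear_combination -h3

/-- **RYU** -/
theorem ryu : RyuStmt := by
  intro k p 𝔻 ε hε hk
  have key : ∀ (ρ : (datU p 𝔻 ε hε).b →ₗ[ℝ] ℝ) (c : ℝ), IsRt (datU p 𝔻 ε hε) ρ →
      IsRt (datU p 𝔻 ε hε) (c • ρ) → c = 1 := by
    intro ρ c h1 h2
    obtain ⟨i, j, hij, H1⟩ := ryu_root h1
    obtain ⟨i', j', hij', H2⟩ := ryu_root h2
    refine ryu_comb hij hij' c fun v hv => ?_
    rw [← H1 v hv, ← H2 v hv]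
    rfl
  refine ⟨fun ρ c h1 h2 => Or.inl (key ρ c h1 h2), fun ρ h1 h2 => ?_⟩
  have h3 := key ρ 2 h1 h2
  norm_num at h3

end Pool.Agent.QSB.H77
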