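import Pool.Agent.QSB.StmtsA

set_option autoImplicit false

/-!
# QSB, row BC2: Baker-Campbell-Hausdorff with central bracket
-/

namespace Pool.Agent.QSB.H77

open Matrix Finset Pool.Agent.QSX Pool.Agent.QSB

attribute [local instance] Matrix.linftyOpNormedRing Matrix.linftyOpNormedAlgebra

section

variable {m : ℕ}

/-- the exponential of `s • x` -/
theorem bc_sum (x : Matrix (Fin m) (Fin m) ℝ) (s : ℝ) :
    mexp (s • x) = ∑ k ∈ range (m + 1), (s ^ k * ((k.factorial : ℝ)⁻¹)) • x ^ k := by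
  unfold mexp
  refine Finset.sum_congr rfl fun k _ => ?_
  rw [smul_pow, smul_smul, mul_comm]

theorem bc_fac (k : ℕ) : ((k : ℝ) + 1) * (((k + 1).factorial : ℝ)⁻¹) = ((k.factorial : ℝ)⁻¹) := by
  rw [Nat.factorial_succ]
  push_cast
  have h1 : (k : ℝ) + 1 ≠ 0 := by positivity
  have h2 : (k.factorial : ℝ) ≠ 0 := by positivity
  field_simp

/-- the derivative of `s ↦ exp (s • x)` -/
theorem bc_deriv {x : Matrix (Fin m) (Fin m) ℝ} (hx : SU x) (s : ℝ) :
    HasDerivAt (fun t : ℝ => mexp (t • x)) (x * mexp (s • x)) s := by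
  have h1 : HasDerivAt
      (fun t : ℝ => ∑ k ∈ range (m + 1), (t ^ k * ((k.factorial : ℝ)⁻¹)) • x ^ k)
      (∑ k ∈ range (m + 1), ((k : ℝ) * s ^ (k - 1) * ((k.factorial : ℝ)⁻¹)) • x ^ k) s := by
    refine HasDerivAt.fun_sum fun k _ => ?_
    exact ((hasDerivAt_pow k s).mul_const _).smul_const _
  have h2 : (fun t : ℝ => mexp (t • x)) =
      fun t : ℝ => ∑ k ∈ range (m + 1), (t ^ k * ((k.factorial : ℝ)⁻¹)) • x ^ k :=
    funext fun t => bc_sum x t
  have h3 : x * mexp (s • x) =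
      ∑ k ∈ range (m + 1), ((k : ℝ) * s ^ (k - 1) * ((k.factorial : ℝ)⁻¹)) • x ^ k := by
    rw [bc_sum, Finset.mul_sum, Finset.sum_range_succ, Finset.sum_range_succ']
    have e1 : x * ((s ^ m * ((m.factorial : ℝ)⁻¹)) • x ^ m) = 0 := by
      rw [hx.pow_eq_zero le_rfl, smul_zero, mul_zero]
    rw [e1, add_zero, Nat.cast_zero, zero_mul, zero_mul, zero_smul, add_zero]
    refine Finset.sum_congr rfl fun k _ => ?_
    rw [Matrix.mul_smul, ← pow_succ', Nat.add_sub_cancel, Nat.cast_add, Nat.cast_one,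
      ← bc_fac k]
    congr 1
    ring
  rw [h2, h3]
  exact h1

/-- the commutation of `b` and the powers of `a` -/
theorem bc_pow {a b : Matrix (Fin m) (Fin m) ℝ}
    (ha : (a * b - b * a) * a = a * (a * b - b * a)) (k : ℕ) :
    a ^ (k + 1) * b = b * a ^ (k + 1) + ((k : ℝ) + 1) • ((a * b - b * a) * a ^ k) := by
  induction k with
  | zero => rw [zero_add, pow_one, pow_zero, mul_one, Nat.cast_zero, zero_add, one_smul]; abel
  | succ k ih =>
    rw [pow_succ' a (k + 1), mul_assoc, ih, mul_add, Matrix.mul_smul, ← mul_assoc a (a * b - b * a),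
      ← ha, mul_assoc (a * b - b * a) a, ← pow_succ', ← mul_assoc a b, ← mul_assoc b a]
    have e : (a * b) * a ^ (k + 1) = b * a * a ^ (k + 1) + (a * b - b * a) * a ^ (k + 1) := by
      rw [← add_mul]; congr 1; abel
    rw [e, add_assoc]
    congr 1
    push_cast
    rw [add_smul ((k : ℝ) + 1) 1, one_smul, add_comm]

/-- the commutation of `b` and `exp (s • a)` -/
theorem bc_comm {a b : Matrix (Fin m) (Fin m) ℝ} (hsa : SU a)
    (ha : (a * b - b * a) * a = a * (a * b - b * a)) (s : ℝ) :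
    mexp (s • a) * b = (b + s • (a * b - b * a)) * mexp (s • a) := by
  set c := a * b - b * a with hc
  have h1 : mexp (s • a) * b = b + ∑ k ∈ range m,
      (s ^ (k + 1) * (((k + 1).factorial : ℝ)⁻¹)) • (a ^ (k + 1) * b) := by
    rw [bc_sum, Finset.sum_range_succ', add_mul, Finset.sum_mul, add_comm]
    congr 1
    · rw [pow_zero, Nat.factorial_zero, Nat.cast_one, inv_one, mul_one, one_smul, pow_zero, one_mul]
    · exact Finset.sum_congr rfl fun k _ => by rw [Matrix.smul_mul]
  have h2 : b * mexp (s • a) = b + ∑ k ∈ range m,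
      (s ^ (k + 1) * (((k + 1).factorial : ℝ)⁻¹)) • (b * a ^ (k + 1)) := by
    rw [bc_sum, Finset.sum_range_succ', mul_add, Finset.mul_sum, add_comm]
    congr 1
    · rw [pow_zero, Nat.factorial_zero, Nat.cast_one, inv_one, mul_one, one_smul, pow_zero, mul_one]
    · exact Finset.sum_congr rfl fun k _ => by rw [Matrix.mul_smul]
  have h3 : s • c * mexp (s • a) = ∑ k ∈ range m,
      (s ^ (k + 1) * ((k.factorial : ℝ)⁻¹)) • (c * a ^ k) := by
    rw [bc_sum, Finset.sum_range_succ, hsa.pow_eq_zero le_rfl, smul_zero, add_zero,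
      Finset.mul_sum]
    refine Finset.sum_congr rfl fun k _ => ?_
    rw [Matrix.smul_mul, Matrix.mul_smul, smul_smul]
    congr 1
    ring
  rw [add_mul, h1, h2, h3, add_assoc, ← Finset.sum_add_distrib]
  congr 1
  refine Finset.sum_congr rfl fun k _ => ?_
  rw [bc_pow ha k, smul_add, smul_smul, ← bc_fac k]
  congr 2
  ring

theorem mexp_comm {x y : Matrix (Fin m) (Fin m) ℝ} (h : Commute x y) : Commute (mexp x) y := by
  unfold mexp
  exact Commute.sum_left _ _ _ fun k _ => (h.pow_left k).smul_left _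

/-- **the formula** -/
theorem bc_main {a b : Matrix (Fin m) (Fin m) ℝ} (hsa : SU a) (hsb : SU b)
    (ha : (a * b - b * a) * a = a * (a * b - b * a))
    (hb : (a * b - b * a) * b = b * (a * b - b * a)) :
    mexp a * mexp b = mexp (a + b) * mexp ((1 / 2 : ℝ) • (a * b - b * a)) := by
  set c := a * b - b * a with hc
  have hsc : SU c := (hsa.mul hsb).sub (hsb.mul hsa)
  have hcab : Commute c (a + b) := by
    show c * (a + b) = (a + b) * c
    rw [mul_add, add_mul, ha, hb]
  -- the function `N`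
  have hK : ∀ s : ℝ, HasDerivAt (fun t : ℝ => mexp ((-(t ^ 2 / 2)) • c))
      ((-s) • (c * mexp ((-(s ^ 2 / 2)) • c))) s := by
    intro s
    have h1 : HasDerivAt (fun t : ℝ => -(t ^ 2 / 2)) (-s) s := by
      have h := ((hasDerivAt_pow 2 s).div_const 2).neg
      have e : -((2 : ℕ) * s ^ (2 - 1) / 2) = -s := by norm_num
      rw [e] at h
      exact h
    exact (bc_deriv hsc (-(s ^ 2 / 2))).scomp s h1
  have hL : ∀ s : ℝ, HasDerivAt (fun t : ℝ => mexp ((-t) • (a + b)))
      ((-1 : ℝ) • ((a + b) * mexp ((-s) • (a + b)))) s := by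
    intro s
    exact (bc_deriv (hsa.add hsb) (-s)).scomp s (hasDerivAt_neg s)
  have hA : ∀ s : ℝ, HasDerivAt (fun t : ℝ => mexp (t • a)) (a * mexp (s • a)) s :=
    fun s => bc_deriv hsa s
  have hB : ∀ s : ℝ, HasDerivAt (fun t : ℝ => mexp (t • b)) (b * mexp (s • b)) s :=
    fun s => bc_deriv hsb s
  have hF : ∀ s : ℝ, HasDerivAt (fun t : ℝ => (mexp ((-(t ^ 2 / 2)) • c) *
      mexp ((-t) • (a + b))) * (mexp (t • a) * mexp (t • b))) 0 s := by
    intro s
    have h := ((hK s).mul (hL s)).mul ((hA s).mul (hB s))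
    have e : ((-s) • (c * mexp ((-(s ^ 2 / 2)) • c)) * mexp ((-s) • (a + b)) +
        mexp ((-(s ^ 2 / 2)) • c) * ((-1 : ℝ) • ((a + b) * mexp ((-s) • (a + b))))) *
          (mexp (s • a) * mexp (s • b)) +
        (mexp ((-(s ^ 2 / 2)) • c) * mexp ((-s) • (a + b))) *
          (a * mexp (s • a) * mexp (s • b) + mexp (s • a) * (b * mexp (s • b))) = 0 := by
      have c1 : Commute (mexp ((-(s ^ 2 / 2)) • c)) c :=
        mexp_comm ((Commute.refl c).smul_left _)
      have c2 : Commute (mexp ((-s) • (a + b))) c :=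
        mexp_comm (hcab.symm.smul_left _)
      have c3 : Commute (mexp ((-s) • (a + b))) (a + b) :=
        mexp_comm ((Commute.refl _).smul_left _)
      have e1 : mexp (s • a) * (b * mexp (s • b)) =
          (b + s • c) * (mexp (s • a) * mexp (s • b)) := by
        rw [← mul_assoc, bc_comm hsa ha s, mul_assoc]
      have e2 : (-s) • (c * mexp ((-(s ^ 2 / 2)) • c)) * mexp ((-s) • (a + b)) =
          -(mexp ((-(s ^ 2 / 2)) • c) * mexp ((-s) • (a + b)) * (s • c)) := by
        rw [← c1.eq, Matrix.smul_mul, mul_assoc, ← c2.eq, neg_smul, Matrix.mul_smul, mul_assoc]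
      have e3 : mexp ((-(s ^ 2 / 2)) • c) * ((-1 : ℝ) • ((a + b) * mexp ((-s) • (a + b)))) =
          -(mexp ((-(s ^ 2 / 2)) • c) * mexp ((-s) • (a + b)) * (a + b)) := by
        rw [← c3.eq, neg_one_smul, mul_neg, mul_assoc]
      rw [e1, e2, e3, mul_assoc a]
      generalize mexp ((-(s ^ 2 / 2)) • c) * mexp ((-s) • (a + b)) = N
      generalize mexp (s • a) * mexp (s • b) = G
      generalize s • c = d
      noncomm_ring
    rw [← e]
    exact h
  have hconst := is_const_of_deriv_eq_zero (fun s => (hF s).differentiableAt)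
    (fun s => (hF s).deriv) 1 0
  have h1 : mexp ((-(1 / 2 : ℝ)) • c) * mexp (-(a + b)) * (mexp a * mexp b) = 1 := by
    have h := hconst
    rw [one_pow, neg_smul (1 : ℝ) (a + b), one_smul, one_smul, one_smul] at h
    rw [h, neg_zero, zero_smul, zero_smul, zero_smul, zero_pow two_ne_zero, zero_div, neg_zero,
      zero_smul, mexp_zero, mul_one, mul_one]
  have h2 : mexp ((1 / 2 : ℝ) • c) * mexp ((-(1 / 2 : ℝ)) • c) = 1 := by
    rw [neg_smul]
    exact mexp_mul_neg (hsc.smul _)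
  have h3 : mexp (a + b) * mexp (-(a + b)) = 1 := mexp_mul_neg (hsa.add hsb)
  calc mexp a * mexp b = mexp (a + b) * ((mexp ((1 / 2 : ℝ) • c) * mexp ((-(1 / 2 : ℝ)) • c)) *
        mexp (-(a + b))) * (mexp a * mexp b) := by rw [h2, one_mul, h3, one_mul]
    _ = mexp (a + b) * mexp ((1 / 2 : ℝ) • c) *
        (mexp ((-(1 / 2 : ℝ)) • c) * mexp (-(a + b)) * (mexp a * mexp b)) := by
      simp only [mul_assoc]
    _ = mexp (a + b) * mexp ((1 / 2 : ℝ) • c) := by rw [h1, mul_one]

/-- **BC2** -/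
theorem bc2 : Bc2Stmt := by
  intro m a b hsa hsb ha hb
  apply Units.ext
  have hsc : SU (a * b - b * a) := (hsa.mul hsb).sub (hsb.mul hsa)
  rw [Units.val_mul, Units.val_mul, ue_val hsa, ue_val hsb, ue_val (hsa.add hsb),
    ue_val (hsc.smul (1 / 2 : ℝ))]
  exact bc_main hsa hsb ha hb

end

end Pool.Agent.QSB.H77
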